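import Pool.Agent.X220.PT.Gate

/-!
# The passage through the gate
-/

set_option autoImplicit false

open Complex Metric Set Filter Topology

namespace Pool.Agent.X220.PT

theorem exit {η : ℝ} (hη : 0 < η) (hη1 : η < 1) : ∃ δ₀ : ℝ, 0 < δ₀ ∧ ∀ δ : ℝ, 0 < δ → δ < δ₀ →
    ∃ κ : ℂ, ‖κ‖ ≤ δ ∧ ∃ k : ℕ, k * δ ≤ Real.pi + η ∧ 3 < ‖U κ k‖ := by
  have hpi := Real.pi_gt_three
  have hpi4 := Real.pi_le_four
  obtain ⟨A, δA, hA, hδA, hδA1, hst⟩ := stable hη hη1
  obtain ⟨a, ha⟩ : ∃ a, a = (Real.pi - η / 2) / (Real.pi + η) := ⟨_, rfl⟩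
  have ha0 : 0 < a := by rw [ha]; apply div_pos <;> linarith
  have ha1 : a * (Real.pi + η) = Real.pi - η / 2 := by
    rw [ha, div_mul_cancel₀ _ (by linarith : Real.pi + η ≠ 0)]
  obtain ⟨b, hb⟩ : ∃ b, b = (Real.pi + η / 16) / (Real.pi + η / 2) := ⟨_, rfl⟩
  have hb0 : 0 < b := by rw [hb]; apply div_pos <;> linarith
  have hb1 : b < 1 := by rw [hb, div_lt_one (by linarith)]; linarith
  obtain ⟨e, he⟩ : ∃ e, e = η / 64000 := ⟨_, rfl⟩
  have he0 : 0 < e := by rw [he]; positivity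
  obtain ⟨q, hq⟩ := exists_pow_lt_of_lt_one (show (0 : ℝ) < e / 3 by positivity) hb1
  obtain ⟨B, hB⟩ : ∃ B, B = A * (1 / a) ^ q / e + A / e := ⟨_, rfl⟩
  have hB0 : 0 < B := by rw [hB]; positivity
  obtain ⟨k₁, hk₁⟩ : ∃ k₁ : ℕ, k₁ = ⌈B ^ 2⌉₊ + 1 := ⟨_, rfl⟩
  have hk₁' : B ^ 2 ≤ k₁ := by
    rw [hk₁]
    push_cast
    linarith [Nat.le_ceil (B ^ 2)]
  have hk₁1 : (1 : ℝ) ≤ k₁ := by
    rw [hk₁]
    push_cast
    linarith [(Nat.cast_nonneg ⌈B ^ 2⌉₊ : (0 : ℝ) ≤ _)]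
  refine ⟨min δA (min (η / 8000) (min (1 / k₁) (η / (320 * (40 * k₁ + 2200))))),
    by positivity, ?_⟩
  intro δ hδ hδ0
  have hd1 : δ < δA := hδ0.trans_le (min_le_left _ _)
  have hd2 : δ < η / 8000 := hδ0.trans_le ((min_le_right _ _).trans (min_le_left _ _))
  have hd3 : δ < 1 / k₁ :=
    hδ0.trans_le ((min_le_right _ _).trans ((min_le_right _ _).trans (min_le_left _ _)))
  have hd4 : δ < η / (320 * (40 * k₁ + 2200)) :=
    hδ0.trans_le ((min_le_right _ _).trans ((min_le_right _ _).trans (min_le_right _ _)))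
  rw [lt_div_iff₀ (by linarith)] at hd3
  rw [lt_div_iff₀ (by positivity)] at hd4
  by_contra hcon
  push Not at hcon
  obtain ⟨N, hN⟩ : ∃ N : ℕ, N = ⌊(Real.pi + η) / δ⌋₊ := ⟨_, rfl⟩
  have hN1 : (N : ℝ) * δ ≤ Real.pi + η := by
    have := Nat.floor_le (by positivity : 0 ≤ (Real.pi + η) / δ)
    rw [← hN, le_div_iff₀ hδ] at this
    exact this
  have hN2 : Real.pi + η < (N + 1) * δ := by
    have := Nat.lt_floor_add_one ((Real.pi + η) / δ)
    rw [← hN, div_lt_iff₀ hδ] at this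
    exact this
  have hN3 : Real.pi + η / 2 ≤ N * δ := by linarith
  have hNpos : 0 < N := by
    rcases Nat.eq_zero_or_pos N with h | h
    · rw [h] at hN3
      push_cast at hN3
      linarith
    · exact h
  have hNr : (0 : ℝ) < N := by exact_mod_cast hNpos
  have hH : ∀ κ : ℂ, ‖κ‖ ≤ δ → ∀ k : ℕ, k ≤ N → ‖U κ k‖ ≤ 3 := by
    intro κ hκ k hk
    apply hcon κ hκ k
    have h1 : (k : ℝ) ≤ N := by exact_mod_cast hk
    exact (mul_le_mul_of_nonneg_right h1 hδ.le).trans hN1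
  have hin : ∀ κ : ℂ, ‖κ‖ ≤ a * δ → ∀ k : ℕ, k ≤ N → ‖U κ k‖ ≤ A / √((k : ℝ) + 1) := by
    intro κ hκ k hk
    have h1 : (k : ℝ) ≤ N := by exact_mod_cast hk
    have hale : a ≤ 1 := by
      rw [ha, div_le_one (by linarith)]
      linarith
    refine (hst κ ?_ k ?_).1
    · refine lt_of_le_of_lt (hκ.trans ?_) hd1
      exact mul_le_of_le_one_left hδ.le hale
    · have h2 : ‖κ‖ * k ≤ a * δ * N := mul_le_mul hκ h1 (Nat.cast_nonneg k) (by positivity)
      have h3 : a * (N * δ) ≤ a * (Real.pi + η) := mul_le_mul_of_nonneg_left hN1 ha0.le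
      nlinarith
  -- small iterates on the larger disc
  have hlarge : ∀ κ : ℂ, ‖κ‖ ≤ b * δ → ∀ k : ℕ, k₁ ≤ k → k ≤ N → ‖U κ k‖ ≤ e := by
    intro κ hκ k hk1 hk
    have hkr : (k₁ : ℝ) ≤ k := by exact_mod_cast hk1
    have hs : 0 < √((k : ℝ) + 1) := Real.sqrt_pos.2 (by positivity)
    have hBs : B ≤ √((k : ℝ) + 1) := by
      apply Real.le_sqrt_of_sq_le
      linarith
    have hA1 : A / √((k : ℝ) + 1) ≤ e := by
      rw [div_le_iff₀ hs]
      have h1 : A / e ≤ √((k : ℝ) + 1) := by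
        refine le_trans ?_ hBs
        rw [hB]
        have : 0 ≤ A * (1 / a) ^ q / e := by positivity
        linarith
      rw [div_le_iff₀ he0] at h1
      linarith
    have hA2 : A / √((k : ℝ) + 1) * (1 / a) ^ q ≤ e := by
      rw [div_mul_eq_mul_div, div_le_iff₀ hs]
      have h1 : A * (1 / a) ^ q / e ≤ √((k : ℝ) + 1) := by
        refine le_trans ?_ hBs
        rw [hB]
        have : 0 ≤ A / e := by positivity
        linarith
      rw [div_le_iff₀ he0] at h1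
      linarith
    rcases le_or_gt ‖κ‖ (a * δ) with h | h
    · exact (hin κ h k hk).trans hA1
    · have hbd : b * δ ≤ δ := mul_le_of_le_one_left hδ.le hb1.le
      have h1 := three_circles (U_diff k) (r₁ := a * δ) (r₂ := δ) (by positivity)
        (fun z hz => hin z hz k hk) (fun z hz => hH z hz k hk) q h.le (hκ.trans hbd)
      refine h1.trans (max_le ?_ ?_)
      · refine le_trans ?_ hA2
        apply mul_le_mul_of_nonneg_left _ (by positivity)
        apply pow_le_pow_left₀ (by positivity)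
        rw [div_le_div_iff₀ (by positivity) ha0]
        nlinarith
      · have h2 : (‖κ‖ / δ) ^ q ≤ b ^ q := by
          apply pow_le_pow_left₀ (by positivity)
          rw [div_le_iff₀ hδ]
          exact hκ
        nlinarith
  have hsmallk : ∀ κ : ℂ, ‖κ‖ ≤ b * δ → ∀ k : ℕ, k < k₁ → ‖U κ k‖ ≤ 3 / 5 := by
    intro κ hκ k hk
    have hkr : (k : ℝ) ≤ k₁ := by exact_mod_cast hk.le
    have hκδ : ‖κ‖ ≤ δ := hκ.trans (mul_le_of_le_one_left hδ.le hb1.le)
    refine (hst κ (hκδ.trans_lt hd1) k ?_).2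
    have h1 : ‖κ‖ * k ≤ δ * k₁ := mul_le_mul hκδ hkr (Nat.cast_nonneg k) hδ.le
    linarith
  refine no_root (N := N) hNpos (η := η / 8) (ε := η / 160) (b := δ) (by positivity) (by linarith)
    (by positivity) (by linarith) (by linarith) ?_
  intro κ hκ
  have hκN : ‖κ‖ * N ≤ Real.pi + η / 16 := by
    have h1 := norm_add_le (2 * κ * N - 2 * Real.pi * I) (2 * Real.pi * I)
    have h2pi : ‖(2 : ℂ) * Real.pi * I‖ = 2 * Real.pi := by
      rw [norm_mul, norm_mul, Complex.norm_real, Real.norm_eq_abs, abs_of_pos Real.pi_pos,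
        Complex.norm_I, mul_one]
      norm_num
    have h3 : ‖(2 : ℂ) * κ * N‖ = 2 * ‖κ‖ * N := by
      rw [norm_mul, norm_mul, Complex.norm_natCast]
      norm_num
    rw [sub_add_cancel, h2pi, h3] at h1
    linarith
  have hκb : ‖κ‖ ≤ b * δ := by
    have h1 : ‖κ‖ * (Real.pi + η / 2) ≤ δ * (Real.pi + η / 16) := by
      have h2 := mul_le_mul_of_nonneg_left hN3 (norm_nonneg κ)
      have h3 := mul_le_mul_of_nonneg_left hκN hδ.le
      nlinarith
    rw [hb, div_mul_eq_mul_div, le_div_iff₀ (by linarith)]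
    linarith
  have hκδ : ‖κ‖ ≤ δ := hκb.trans (mul_le_of_le_one_left hδ.le hb1.le)
  have he35 : e ≤ 3 / 5 := by rw [he]; linarith
  have hall : ∀ k ≤ N, ‖U κ k‖ ≤ 3 / 5 := by
    intro k hk
    rcases Nat.lt_or_ge k k₁ with h | h
    · exact hsmallk κ hκb k h
    · exact (hlarge κ hκb k h hk).trans he35
  refine ⟨hκδ, hall, ?_⟩
  have hsum : ∑ k ∈ Finset.range N, ‖U κ k‖ ≤ k₁ + e * N := by
    have h1 : ∀ k ∈ Finset.range N, ‖U κ k‖ ≤ (if k < k₁ then 1 else 0) + e := by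
      intro k hk
      have hk' := (Finset.mem_range.1 hk).le
      split_ifs with h
      · have := hsmallk κ hκb k h
        linarith
      · have := hlarge κ hκb k (not_lt.1 h) hk'
        linarith
    refine (Finset.sum_le_sum h1).trans ?_
    rw [Finset.sum_add_distrib, Finset.sum_const, Finset.card_range, nsmul_eq_mul,
      ← Finset.sum_filter, Finset.sum_const, nsmul_eq_mul, mul_one]
    have h2 : (((Finset.range N).filter fun k => k < k₁).card : ℝ) ≤ k₁ := by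
      have h3 : ((Finset.range N).filter fun k => k < k₁) ⊆ Finset.range k₁ := by
        intro k hk
        rw [Finset.mem_filter] at hk
        exact Finset.mem_range.2 hk.2
      have h4 := Finset.card_le_card h3
      rw [Finset.card_range] at h4
      exact_mod_cast h4
    nlinarith
  have hκN5 : ‖κ‖ * N ≤ 5 := by linarith
  have h1 : 40 * ‖κ‖ * ∑ k ∈ Finset.range N, ‖U κ k‖ ≤ 40 * ‖κ‖ * (k₁ + e * N) :=
    mul_le_mul_of_nonneg_left hsum (by positivity)
  have h2 : 40 * ‖κ‖ * (k₁ + e * N) ≤ 40 * δ * k₁ + 200 * e := by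
    have h3 : ‖κ‖ * k₁ ≤ δ * k₁ := mul_le_mul_of_nonneg_right hκδ (Nat.cast_nonneg _)
    have h4 : e * (‖κ‖ * N) ≤ e * 5 := mul_le_mul_of_nonneg_left hκN5 he0.le
    nlinarith
  have h3 : 440 * ‖κ‖ ^ 2 * N ≤ 2200 * δ := by
    have h4 : ‖κ‖ * (‖κ‖ * N) ≤ δ * 5 := mul_le_mul hκδ hκN5 (by positivity) hδ.le
    nlinarith
  rw [he] at h2
  nlinarith

end Pool.Agent.X220.PT
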