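import Mathlib

/-!
# Quadratic polynomials near the root `-3/4` of the component of period two

For `c = -3/4 + κ - κ² / 4` the polynomial `z² + c` has the fixed point `α = (κ - 1) / 2` of multiplier
`κ - 1`, and in the coordinate `u = z - α` the critical orbit is `U κ n`.  With
`G = (u² + κ (1 + u)) / u²` (the quotient of the polynomial whose roots are the points of the cycle of
period two by `(z - α)²`) one has exactly `G κ (n + 1) = G κ n * (1 + κ * E κ (U κ n))`, where `E κ u` is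
close to `2` when `κ` and `u` are small.
-/

set_option autoImplicit false

open Complex Metric Set Filter Topology

namespace Pool.Agent.X220.PT

/-- the critical orbit in the coordinate `z - α` -/
noncomputable def U (κ : ℂ) : ℕ → ℂ
  | 0 => (1 - κ) / 2
  | n + 1 => -U κ n * (1 - U κ n - κ)

theorem U_zero (κ : ℂ) : U κ 0 = (1 - κ) / 2 := rfl

theorem U_succ (κ : ℂ) (n : ℕ) : U κ (n + 1) = -U κ n * (1 - U κ n - κ) := rfl

noncomputable def G (κ : ℂ) (n : ℕ) : ℂ := (U κ n ^ 2 + κ * (1 + U κ n)) / U κ n ^ 2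

noncomputable def E (κ u : ℂ) : ℂ := (2 - κ - u) / (1 - u - κ) ^ 2

theorem one_sub_ne {κ u : ℂ} (hκ : ‖κ‖ ≤ 1 / 100) (hu : ‖u‖ ≤ 3 / 5) : 39 / 100 ≤ ‖1 - u - κ‖ := by
  have h1 : ‖(1 : ℂ)‖ ≤ ‖1 - u - κ‖ + ‖u + κ‖ := by
    have := norm_add_le (1 - u - κ) (u + κ)
    rwa [show (1 - u - κ) + (u + κ) = 1 by ring] at this
  have h2 := norm_add_le u κ
  rw [norm_one] at h1
  linarith

theorem G_succ {κ : ℂ} {n : ℕ} (hκ : ‖κ‖ ≤ 1 / 100) (hu : ‖U κ n‖ ≤ 3 / 5) (h0 : U κ n ≠ 0) :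
    G κ (n + 1) = G κ n * (1 + κ * E κ (U κ n)) := by
  have h1 : 1 - U κ n - κ ≠ 0 := by
    intro h
    have := one_sub_ne hκ hu
    rw [h, norm_zero] at this
    norm_num at this
  unfold G E
  rw [U_succ]
  obtain ⟨u, hu'⟩ : ∃ u, u = U κ n := ⟨_, rfl⟩
  rw [← hu'] at h0 h1 ⊢
  field_simp
  ring

theorem U_ne {κ : ℂ} (hκ : ‖κ‖ ≤ 1 / 100) {n : ℕ} (hu : ∀ k < n, ‖U κ k‖ ≤ 3 / 5) : U κ n ≠ 0 := by
  induction n with
  | zero =>
    rw [U_zero]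
    intro h
    have h1 : κ = 1 := by linear_combination (-2 : ℂ) * h
    rw [h1, norm_one] at hκ
    norm_num at hκ
  | succ n ih =>
    rw [U_succ]
    apply mul_ne_zero
    · exact neg_ne_zero.2 (ih fun k hk => hu k (by omega))
    · intro h
      have := one_sub_ne hκ (hu n (by omega))
      rw [h, norm_zero] at this
      norm_num at this

theorem E_bd {κ u : ℂ} (hκ : ‖κ‖ ≤ 1 / 100) (hu : ‖u‖ ≤ 3 / 5) :
    ‖E κ u‖ ≤ 20 ∧ ‖E κ u - 2‖ ≤ 40 * (‖u‖ + ‖κ‖) := by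
  have h1 := one_sub_ne hκ hu
  have h0 : 1 - u - κ ≠ 0 := by
    intro h
    rw [h, norm_zero] at h1
    norm_num at h1
  have h2 : (15 : ℝ) / 100 ≤ ‖1 - u - κ‖ ^ 2 := by nlinarith
  have hpos : 0 < ‖1 - u - κ‖ ^ 2 := by linarith
  have hs : ‖u + κ‖ ≤ ‖u‖ + ‖κ‖ := norm_add_le u κ
  have hn := norm_nonneg (u + κ)
  constructor
  · unfold E
    rw [norm_div, norm_pow, div_le_iff₀ hpos]
    have h3 : ‖2 - κ - u‖ ≤ 2 + (‖u‖ + ‖κ‖) := by
      have h4 := norm_sub_le (2 : ℂ) (u + κ)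
      rw [show (2 : ℂ) - (u + κ) = 2 - κ - u by ring] at h4
      have h5 : ‖(2 : ℂ)‖ = 2 := by norm_num
      linarith
    linarith
  · have h3 : E κ u - 2 = (u + κ) * (3 - 2 * (u + κ)) / (1 - u - κ) ^ 2 := by
      unfold E
      rw [div_sub' (pow_ne_zero 2 h0)]
      congr 1
      ring
    rw [h3, norm_div, norm_pow, div_le_iff₀ hpos, norm_mul]
    have h4 : ‖3 - 2 * (u + κ)‖ ≤ 3 + 2 * ‖u + κ‖ := by
      have h5 := norm_sub_le (3 : ℂ) (2 * (u + κ))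
      rw [norm_mul] at h5
      have h6 : ‖(2 : ℂ)‖ = 2 := by norm_num
      have h7 : ‖(3 : ℂ)‖ = 3 := by norm_num
      rw [h6, h7] at h5
      exact h5
    have h5 : ‖u + κ‖ * ‖3 - 2 * (u + κ)‖ ≤ (‖u‖ + ‖κ‖) * (3 + 2 * (61 / 100)) :=
      mul_le_mul hs (h4.trans (by linarith)) (norm_nonneg _) (by positivity)
    have h6 : 0 ≤ ‖u‖ + ‖κ‖ := by positivity
    nlinarith

theorem G_zero_sub {κ : ℂ} (hκ : ‖κ‖ ≤ 1 / 100) : ‖G κ 0 - 1‖ ≤ 7 * ‖κ‖ := by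
  have h1 : ‖(1 : ℂ)‖ ≤ ‖1 - κ‖ + ‖κ‖ := by
    have := norm_add_le (1 - κ) κ
    rwa [sub_add_cancel] at this
  rw [norm_one] at h1
  have h0 : 1 - κ ≠ 0 := by
    intro h
    rw [h, norm_zero] at h1
    linarith
  have h2 : G κ 0 - 1 = κ * (6 - 2 * κ) / (1 - κ) ^ 2 := by
    unfold G
    rw [U_zero]
    field_simp
    ring
  have hpos : 0 < ‖1 - κ‖ := norm_pos_iff.2 h0
  rw [h2, norm_div, norm_pow, div_le_iff₀ (by positivity), norm_mul]
  have h3 : ‖6 - 2 * κ‖ ≤ 6 + 2 * ‖κ‖ := by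
    have h5 := norm_sub_le (6 : ℂ) (2 * κ)
    rw [norm_mul] at h5
    have h6 : ‖(2 : ℂ)‖ = 2 := by norm_num
    have h7 : ‖(6 : ℂ)‖ = 6 := by norm_num
    rw [h6, h7] at h5
    exact h5
  have h4 : (98 : ℝ) / 100 ≤ ‖1 - κ‖ ^ 2 := by nlinarith
  have h5 : ‖κ‖ * ‖6 - 2 * κ‖ ≤ ‖κ‖ * (6 + 2 * (1 / 100)) :=
    mul_le_mul_of_nonneg_left (by linarith) (norm_nonneg _)
  nlinarith [norm_nonneg κ]

theorem G_sub_one {κ : ℂ} {n : ℕ} (h0 : U κ n ≠ 0) :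
    G κ n - 1 = κ * (1 + U κ n) / U κ n ^ 2 := by
  unfold G
  field_simp
  ring

/-- the cocycle -/
theorem cocycle {κ : ℂ} (hκ : ‖κ‖ ≤ 1 / 100) {n : ℕ} (hu : ∀ k < n, ‖U κ k‖ ≤ 3 / 5) :
    ∃ S : ℂ, G κ n = G κ 0 * exp S ∧
      ‖S - 2 * κ * n‖ ≤ 40 * ‖κ‖ * (∑ k ∈ Finset.range n, ‖U κ k‖) + 440 * ‖κ‖ ^ 2 * n := by
  induction n with
  | zero => exact ⟨0, by simp, by simp⟩
  | succ n ih =>
    obtain ⟨S, hS, hS'⟩ := ih fun k hk => hu k (by omega)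
    obtain ⟨x, hx⟩ : ∃ x, x = κ * E κ (U κ n) := ⟨_, rfl⟩
    obtain ⟨hE1, hE2⟩ := E_bd hκ (hu n (by omega))
    have hxn : ‖x‖ ≤ 20 * ‖κ‖ := by
      rw [hx, norm_mul, mul_comm]
      exact mul_le_mul_of_nonneg_right hE1 (norm_nonneg _)
    have hx1 : ‖x‖ < 1 := by linarith
    have hx2 : 1 + x ≠ 0 := by
      intro h
      have h1 : x = -1 := by linear_combination h
      rw [h1, norm_neg, norm_one] at hx1
      exact lt_irrefl _ hx1
    refine ⟨S + log (1 + x), ?_, ?_⟩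
    · rw [G_succ hκ (hu n (by omega)) (U_ne hκ fun k hk => hu k (by omega)), hS, exp_add,
        exp_log hx2, ← hx]
      ring
    · have h1 := norm_log_one_add_sub_self_le hx1
      have h2 : ‖log (1 + x) - x‖ ≤ 400 * ‖κ‖ ^ 2 := by
        refine h1.trans ?_
        have h3 : (1 - ‖x‖)⁻¹ ≤ 2 := by
          rw [inv_le_comm₀ (by linarith) (by norm_num)]
          linarith
        have h4 : ‖x‖ ^ 2 ≤ (20 * ‖κ‖) ^ 2 := pow_le_pow_left₀ (norm_nonneg _) hxn 2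
        have h5 : ‖x‖ ^ 2 * (1 - ‖x‖)⁻¹ ≤ (20 * ‖κ‖) ^ 2 * 2 :=
          mul_le_mul h4 h3 (inv_nonneg.2 (by linarith)) (by positivity)
        linarith
      have h3 : ‖x - 2 * κ‖ ≤ 40 * ‖κ‖ * ‖U κ n‖ + 40 * ‖κ‖ ^ 2 := by
        rw [hx, show κ * E κ (U κ n) - 2 * κ = κ * (E κ (U κ n) - 2) by ring, norm_mul]
        have := mul_le_mul_of_nonneg_left hE2 (norm_nonneg κ)
        nlinarith
      have h4 : S + log (1 + x) - 2 * κ * ((n + 1 : ℕ) : ℂ) =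
          (S - 2 * κ * n) + ((log (1 + x) - x) + (x - 2 * κ)) := by
        push_cast
        ring
      rw [h4]
      refine (norm_add_le _ _).trans ?_
      have h5 := norm_add_le (log (1 + x) - x) (x - 2 * κ)
      rw [Finset.sum_range_succ]
      push_cast
      nlinarith

end Pool.Agent.X220.PT
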