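import Pool.Agent.X220.PT.StableB

/-!
# The passage through the gate: near `κ = π i / N` some orbit escapes before the time `N`
-/

set_option autoImplicit false

open Complex Metric Set Filter Topology

namespace Pool.Agent.X220.PT

/-- A weak form of the three circles theorem. -/
theorem three_circles {f : ℂ → ℂ} (hf : Differentiable ℂ f) {r₁ r₂ M₁ M₂ : ℝ} (hr₁ : 0 < r₁)
    (h₁ : ∀ z, ‖z‖ ≤ r₁ → ‖f z‖ ≤ M₁) (h₂ : ∀ z, ‖z‖ ≤ r₂ → ‖f z‖ ≤ M₂) (q : ℕ) {z : ℂ}
    (hz₁ : r₁ ≤ ‖z‖) (hz₂ : ‖z‖ ≤ r₂) :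
    ‖f z‖ ≤ max (M₁ * (‖z‖ / r₁) ^ q) (M₂ * (‖z‖ / r₂) ^ q) := by
  have hr₂ : 0 < r₂ := hr₁.trans_le (hz₁.trans hz₂)
  have hz0 : 0 < ‖z‖ := hr₁.trans_le hz₁
  obtain ⟨s, hs⟩ : ∃ s, s = ball (0 : ℂ) r₂ ∩ (closedBall (0 : ℂ) r₁)ᶜ := ⟨_, rfl⟩
  rcases eq_or_lt_of_le hz₁ with he | hlt₁
  · refine le_max_of_le_left ?_
    rw [← he, div_self hr₁.ne', one_pow, mul_one]
    exact h₁ z he.ge
  rcases eq_or_lt_of_le hz₂ with he | hlt₂
  · refine le_max_of_le_right ?_
    rw [he, div_self hr₂.ne', one_pow, mul_one]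
    exact h₂ z he.le
  have hclos : closure s ⊆ {w : ℂ | r₁ ≤ ‖w‖} := by
    apply closure_minimal _ (isClosed_le continuous_const continuous_norm)
    intro w hw
    rw [hs] at hw
    have := hw.2
    rw [mem_compl_iff, mem_closedBall_zero_iff] at this
    exact (not_le.1 this).le
  have hd : DiffContOnCl ℂ (fun w => f w / w ^ q) s := by
    apply DifferentiableOn.diffContOnCl
    intro w hw
    have h1 : r₁ ≤ ‖w‖ := hclos hw
    have h2 : w ≠ 0 := by
      rintro rfl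
      rw [norm_zero] at h1
      linarith
    have h3 : w ^ q ≠ 0 := pow_ne_zero q h2
    have h4 : DifferentiableAt ℂ (fun w : ℂ => w ^ q) w := by fun_prop
    exact (hf.differentiableAt.div h4 h3).differentiableWithinAt
  have hbd : Bornology.IsBounded s := by
    rw [hs]
    exact isBounded_ball.subset inter_subset_left
  have hfr : ∀ w ∈ frontier s, ‖w‖ = r₂ ∨ ‖w‖ = r₁ := by
    intro w hw
    rw [hs] at hw
    rcases frontier_inter_subset _ _ hw with h | h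
    · left
      have := h.1
      rw [frontier_ball _ hr₂.ne'] at this
      simpa using this
    · right
      have := h.2
      rw [frontier_compl, frontier_closedBall _ hr₁.ne'] at this
      simpa using this
  have hM₁ : 0 ≤ M₁ := (norm_nonneg _).trans (h₁ 0 (by simpa using hr₁.le))
  have hM₂ : 0 ≤ M₂ := (norm_nonneg _).trans (h₂ 0 (by simpa using hr₂.le))
  have hmax := Complex.norm_le_of_forall_mem_frontier_norm_le hbd hd
    (C := max (M₁ / r₁ ^ q) (M₂ / r₂ ^ q)) (fun w hw => by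
      rw [norm_div, norm_pow]
      rcases hfr w hw with h | h
      · refine le_max_of_le_right ?_
        rw [h]
        exact div_le_div_of_nonneg_right (h₂ w h.le) (by positivity)
      · refine le_max_of_le_left ?_
        rw [h]
        exact div_le_div_of_nonneg_right (h₁ w h.le) (by positivity))
    (subset_closure (show z ∈ s by
      rw [hs]
      refine ⟨by simpa using hlt₂, ?_⟩
      rw [mem_compl_iff, mem_closedBall_zero_iff]
      exact not_le.2 hlt₁))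
  rw [norm_div, norm_pow, div_le_iff₀ (by positivity)] at hmax
  refine hmax.trans (le_of_eq ?_)
  rw [max_mul_of_nonneg _ _ (by positivity), div_pow, div_pow]
  congr 1 <;> field_simp

/-- the contradiction near `κ = π i / N` -/
theorem no_root {N : ℕ} (hN : 0 < N) {η ε b : ℝ} (hη : 0 < η) (hη1 : η ≤ 1 / 4)
    (hε0 : 0 ≤ ε) (hε : ε ≤ η / 20) (hb : b ≤ η / 1000)
    (hsmall : ∀ κ : ℂ, ‖2 * κ * N - 2 * Real.pi * I‖ ≤ η → ‖κ‖ ≤ b ∧
      (∀ k ≤ N, ‖U κ k‖ ≤ 3 / 5) ∧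
      40 * ‖κ‖ * (∑ k ∈ Finset.range N, ‖U κ k‖) + 440 * ‖κ‖ ^ 2 * N ≤ ε) : False := by
  have hpi := Real.pi_gt_three
  have hNr : (0 : ℝ) < N := by exact_mod_cast hN
  have hNc : (N : ℂ) ≠ 0 := by exact_mod_cast hN.ne'
  obtain ⟨κc, hκc⟩ : ∃ κc : ℂ, κc = Real.pi * I / N := ⟨_, rfl⟩
  have hcen : 2 * κc * N - 2 * Real.pi * I = 0 := by
    rw [hκc]
    field_simp
    ring
  have hdist : ∀ κ : ℂ, ‖2 * κ * N - 2 * Real.pi * I‖ = 2 * N * ‖κ - κc‖ := by
    intro κ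
    have h1 : 2 * κ * N - 2 * Real.pi * I = 2 * N * (κ - κc) := by
      linear_combination hcen
    rw [h1, norm_mul, norm_mul, Complex.norm_natCast]
    norm_num
  have h2pi : ‖(2 : ℂ) * Real.pi * I‖ = 2 * Real.pi := by
    rw [norm_mul, norm_mul, Complex.norm_real, Real.norm_eq_abs, abs_of_pos Real.pi_pos,
      Complex.norm_I, mul_one]
    norm_num
  have hne : ∀ κ : ℂ, ‖2 * κ * N - 2 * Real.pi * I‖ ≤ η → κ ≠ 0 := by
    rintro κ h rfl
    rw [mul_zero, zero_mul, zero_sub, norm_neg, h2pi] at h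
    linarith
  -- estimates for `G`
  have hG : ∀ κ : ℂ, ‖2 * κ * N - 2 * Real.pi * I‖ ≤ η → ∃ Y : ℂ,
      ‖Y - (2 * κ * N - 2 * Real.pi * I)‖ ≤ ε ∧ G κ N = G κ 0 * exp Y ∧ ‖G κ 0 - 1‖ ≤ 7 * b ∧
      ‖κ‖ ≤ 1 / 100 := by
    intro κ h
    obtain ⟨h1, h2, h3⟩ := hsmall κ h
    have hκ : ‖κ‖ ≤ 1 / 100 := by linarith
    obtain ⟨S, hS1, hS2⟩ := cocycle hκ (n := N) fun k hk => h2 k hk.le
    refine ⟨S - 2 * Real.pi * I, ?_, ?_, ?_, hκ⟩
    · rw [show S - 2 * Real.pi * I - (2 * κ * N - 2 * Real.pi * I) = S - 2 * κ * N by ring]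
      exact hS2.trans h3
    · rw [hS1, exp_sub, exp_two_pi_mul_I, div_one]
    · exact (G_zero_sub hκ).trans (by linarith)
  obtain ⟨F, hF⟩ : ∃ F : ℂ → ℂ, F = fun κ => U κ N ^ 2 / (κ * (1 + U κ N)) := ⟨_, rfl⟩
  have hFG : ∀ κ : ℂ, ‖2 * κ * N - 2 * Real.pi * I‖ ≤ η → U κ N ≠ 0 ∧ 1 + U κ N ≠ 0 ∧
      ‖F κ‖ * ‖G κ N - 1‖ = 1 := by
    intro κ h
    obtain ⟨h1, h2, h3⟩ := hsmall κ h
    obtain ⟨Y, -, -, -, hκ⟩ := hG κ h
    have h4 := U_ne hκ (n := N) fun k hk => h2 k hk.le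
    have h5 : 1 + U κ N ≠ 0 := by
      intro h6
      have h7 : U κ N = -1 := by linear_combination h6
      have h8 := h2 N le_rfl
      rw [h7, norm_neg, norm_one] at h8
      norm_num at h8
    refine ⟨h4, h5, ?_⟩
    rw [G_sub_one h4, hF, ← norm_mul]
    have h6 : U κ N ^ 2 / (κ * (1 + U κ N)) * (κ * (1 + U κ N) / U κ N ^ 2) = 1 := by
      have h7 := hne κ h
      field_simp
    simp only
    rw [h6, norm_one]
  -- the maximum principle
  obtain ⟨ρ, hρ⟩ : ∃ ρ : ℝ, ρ = η / (2 * N) := ⟨_, rfl⟩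
  have hρ0 : 0 < ρ := by rw [hρ]; positivity
  have hball : ∀ κ ∈ closedBall κc ρ, ‖2 * κ * N - 2 * Real.pi * I‖ ≤ η := by
    intro κ hκ
    rw [mem_closedBall, dist_eq_norm, hρ, le_div_iff₀ (by positivity)] at hκ
    rw [hdist]
    linarith
  have hd : DiffContOnCl ℂ F (ball κc ρ) := by
    apply DifferentiableOn.diffContOnCl
    rw [closure_ball _ hρ0.ne']
    intro κ hκ
    have h1 := hball κ hκ
    obtain ⟨h2, h3, -⟩ := hFG κ h1
    have h4 := hne κ h1
    rw [hF]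
    apply DifferentiableAt.differentiableWithinAt
    have hU : DifferentiableAt ℂ (fun κ => U κ N) κ := (U_diff N).differentiableAt
    exact (hU.pow 2).div (differentiableAt_id.mul (hU.const_add 1)) (mul_ne_zero h4 h3)
  have hbdry : ∀ κ ∈ frontier (ball κc ρ), ‖F κ‖ ≤ 1 / (η * (2 / 5)) := by
    intro κ hκ
    rw [frontier_ball _ hρ0.ne', mem_sphere, dist_eq_norm, hρ, eq_div_iff (by positivity)] at hκ
    have he : ‖2 * κ * N - 2 * Real.pi * I‖ = η := by
      rw [hdist]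
      linarith
    obtain ⟨-, -, h1⟩ := hFG κ he.le
    obtain ⟨Y, hY1, hY2, hY3, -⟩ := hG κ he.le
    have hYup : ‖Y‖ ≤ 21 / 20 * η := by
      have := norm_add_le (Y - (2 * κ * N - 2 * Real.pi * I)) (2 * κ * N - 2 * Real.pi * I)
      rw [sub_add_cancel, he] at this
      linarith
    have hYlo : 19 / 20 * η ≤ ‖Y‖ := by
      have := norm_sub_le Y (Y - (2 * κ * N - 2 * Real.pi * I))
      rw [sub_sub_cancel, he] at this
      linarith
    have hY3' : ‖Y‖ ≤ 21 / 80 := by linarith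
    have he1 := Complex.norm_exp_sub_one_sub_id_le (x := Y) (by linarith)
    have he2 : ‖Y‖ * (59 / 80) ≤ ‖exp Y - 1‖ := by
      have h2 := norm_sub_le (exp Y - 1) (exp Y - 1 - Y)
      rw [sub_sub_cancel] at h2
      nlinarith [norm_nonneg Y]
    have he3 : ‖exp Y‖ ≤ 2 := by
      have h2 := Complex.norm_exp_sub_one_le (x := Y) (by linarith)
      have h3 := norm_add_le (exp Y - 1) 1
      rw [sub_add_cancel, norm_one] at h3
      linarith
    have hlow : η * (2 / 5) ≤ ‖G κ N - 1‖ := by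
      have h2 : ‖exp Y - 1‖ ≤ ‖G κ N - 1‖ + ‖(G κ 0 - 1) * exp Y‖ := by
        have := norm_sub_le (G κ N - 1) ((G κ 0 - 1) * exp Y)
        rwa [show G κ N - 1 - (G κ 0 - 1) * exp Y = exp Y - 1 by rw [hY2]; ring] at this
      have h3 : ‖(G κ 0 - 1) * exp Y‖ ≤ 7 * b * 2 := by
        rw [norm_mul]
        exact mul_le_mul hY3 he3 (norm_nonneg _) ((norm_nonneg _).trans hY3)
      nlinarith
    rw [le_div_iff₀ (by positivity), ← h1]
    exact mul_le_mul_of_nonneg_left hlow (norm_nonneg _)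
  have hcenter := Complex.norm_le_of_forall_mem_frontier_norm_le isBounded_ball hd hbdry
    (subset_closure (mem_ball_self hρ0))
  have h0 : ‖2 * κc * N - 2 * Real.pi * I‖ ≤ η := by
    rw [hcen, norm_zero]
    exact hη.le
  obtain ⟨-, -, h1⟩ := hFG κc h0
  obtain ⟨Y, hY1, hY2, hY3, -⟩ := hG κc h0
  rw [hcen, sub_zero] at hY1
  have hup : ‖G κc N - 1‖ ≤ η * (1 / 5) := by
    have h2 : G κc N - 1 = (exp Y - 1) + (G κc 0 - 1) * exp Y := by
      rw [hY2]
      ring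
    have h3 := Complex.norm_exp_sub_one_le (x := Y) (by linarith)
    have he3 : ‖exp Y‖ ≤ 2 := by
      have h3' := norm_add_le (exp Y - 1) 1
      rw [sub_add_cancel, norm_one] at h3'
      linarith
    have h4 : ‖(G κc 0 - 1) * exp Y‖ ≤ 7 * b * 2 := by
      rw [norm_mul]
      exact mul_le_mul hY3 he3 (norm_nonneg _) ((norm_nonneg _).trans hY3)
    rw [h2]
    refine (norm_add_le _ _).trans ?_
    linarith
  have h2 : (1 : ℝ) ≤ 1 / (η * (2 / 5)) * (η * (1 / 5)) :=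
    h1.symm.le.trans (mul_le_mul hcenter hup (norm_nonneg _) (by positivity))
  have h3 : 1 / (η * (2 / 5)) * (η * (1 / 5)) = 1 / 2 := by
    field_simp
  rw [h3] at h2
  norm_num at h2

end Pool.Agent.X220.PT
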