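import Pool.Agent.X220.PT.Core

/-!
# Slow escape: the orbit stays small for `2 ‖κ‖ n ≤ 2 π - η`
-/

set_option autoImplicit false

open Complex Metric Set Filter Topology

namespace Pool.Agent.X220.PT

/-! ### The parabolic parameter -/

noncomputable def V : ℕ → ℝ
  | 0 => 1 / 2
  | n + 1 => -V n * (1 - V n)

theorem U_real (n : ℕ) : U 0 n = (V n : ℂ) := by
  induction n with
  | zero =>
    rw [U_zero]
    show (1 - 0) / 2 = (((1 / 2 : ℝ)) : ℂ)
    push_cast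
    norm_num
  | succ n ih =>
    rw [U_succ, ih]
    show _ = ((-V n * (1 - V n) : ℝ) : ℂ)
    push_cast
    ring

theorem V_mem (n : ℕ) : -1 / 4 ≤ V n ∧ V n ≤ 1 / 2 := by
  induction n with
  | zero =>
    show -1 / 4 ≤ (1 / 2 : ℝ) ∧ (1 / 2 : ℝ) ≤ 1 / 2
    constructor <;> norm_num
  | succ n ih =>
    show -1 / 4 ≤ -V n * (1 - V n) ∧ -V n * (1 - V n) ≤ 1 / 2
    obtain ⟨h1, h2⟩ := ih
    constructor
    · nlinarith [sq_nonneg (V n - 1 / 2)]
    · nlinarith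

theorem V_sq (n : ℕ) : ((n : ℝ) + 6) * V n ^ 2 ≤ 1 + V n := by
  induction n with
  | zero =>
    show (((0 : ℕ) : ℝ) + 6) * (1 / 2 : ℝ) ^ 2 ≤ 1 + 1 / 2
    norm_num
  | succ n ih =>
    show (((n + 1 : ℕ) : ℝ) + 6) * (-V n * (1 - V n)) ^ 2 ≤ 1 + -V n * (1 - V n)
    obtain ⟨h1, h2⟩ := V_mem n
    push_cast
    have h3 : ((n : ℝ) + 6) * V n ^ 2 * (1 - V n) ^ 2 ≤ (1 + V n) * (1 - V n) ^ 2 :=
      mul_le_mul_of_nonneg_right ih (sq_nonneg _)
    have h4 : 0 ≤ V n ^ 2 * ((2 - V n) - (1 - V n) ^ 2) :=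
      mul_nonneg (sq_nonneg _) (by nlinarith)
    nlinarith

theorem U0_bd (n : ℕ) : ‖U 0 n‖ ≤ 3 / 2 / √((n : ℝ) + 1) ∧ ‖U 0 n‖ ≤ 1 / 2 := by
  obtain ⟨h1, h2⟩ := V_mem n
  have h3 := V_sq n
  rw [U_real, Complex.norm_real, Real.norm_eq_abs]
  have hs : 0 < √((n : ℝ) + 1) := Real.sqrt_pos.2 (by positivity)
  constructor
  · rw [le_div_iff₀ hs]
    apply abs_le_of_sq_le_sq' _ (by norm_num) |>.2
    rw [mul_pow, sq_abs, Real.sq_sqrt (by positivity)]
    nlinarith [sq_nonneg (V n)]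
  · rw [abs_le]
    constructor <;> linarith

theorem U_cont (n : ℕ) : Continuous fun κ : ℂ => U κ n := by
  induction n with
  | zero =>
    simp only [U_zero]
    fun_prop
  | succ n ih =>
    simp only [U_succ]
    fun_prop

theorem U_diff (n : ℕ) : Differentiable ℂ fun κ : ℂ => U κ n := by
  induction n with
  | zero =>
    simp only [U_zero]
    fun_prop
  | succ n ih =>
    simp only [U_succ]
    fun_prop

/-- the first steps -/
theorem first_steps (n₀ : ℕ) : ∃ δ : ℝ, 0 < δ ∧ ∀ κ : ℂ, ‖κ‖ < δ → ∀ n ≤ n₀,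
    ‖U κ n‖ ≤ 2 / √((n : ℝ) + 1) ∧ ‖U κ n‖ ≤ 3 / 5 := by
  have h1 : ∀ n : ℕ, ∀ᶠ κ : ℂ in 𝓝 0, ‖U κ n‖ ≤ 2 / √((n : ℝ) + 1) ∧ ‖U κ n‖ ≤ 3 / 5 := by
    intro n
    obtain ⟨h2, h3⟩ := U0_bd n
    have hs : 0 < √((n : ℝ) + 1) := Real.sqrt_pos.2 (by positivity)
    have h4 : Tendsto (fun κ : ℂ => ‖U κ n‖) (𝓝 0) (𝓝 ‖U 0 n‖) := ((U_cont n).norm).tendsto 0
    have h5 : ‖U 0 n‖ < 2 / √((n : ℝ) + 1) := by
      refine h2.trans_lt ?_
      exact div_lt_div_of_pos_right (by norm_num) hs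
    have h6 : ‖U 0 n‖ < 3 / 5 := by linarith
    filter_upwards [h4.eventually (gt_mem_nhds h5), h4.eventually (gt_mem_nhds h6)] with κ a b
    exact ⟨a.le, b.le⟩
  have h2 : ∀ᶠ κ : ℂ in 𝓝 0, ∀ n ≤ n₀, ‖U κ n‖ ≤ 2 / √((n : ℝ) + 1) ∧ ‖U κ n‖ ≤ 3 / 5 := by
    have h3 := (Filter.eventually_all_finset (Finset.range (n₀ + 1))).2 fun n _ => h1 n
    filter_upwards [h3] with κ h n hn
    exact h n (Finset.mem_range.2 (by omega))
  obtain ⟨δ, hδ, h⟩ := Metric.eventually_nhds_iff.1 h2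
  exact ⟨δ, hδ, fun κ hκ => h (by rwa [dist_zero_right])⟩

/-! ### The exponential is not one -/

theorem exp_lower {r : ℝ} (hr : r < 2 * Real.pi) : ∃ m : ℝ, 0 < m ∧ m ≤ 1 ∧ ∀ X : ℂ, ‖X‖ ≤ r →
    m * ‖X‖ ≤ ‖exp X - 1‖ := by
  rcases lt_or_ge r 0 with h0 | h0
  · exact ⟨1, one_pos, le_rfl, fun X hX => absurd (norm_nonneg X) (by linarith)⟩
  have hcont : Continuous fun X : ℂ => ‖dslope exp 0 X‖ := by
    have h1 : Continuous (dslope exp (0 : ℂ)) := by
      rw [continuous_iff_continuousAt]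
      intro X
      rcases eq_or_ne X 0 with rfl | hX
      · exact continuousAt_dslope_same.2 differentiableAt_exp
      · exact (continuousAt_dslope_of_ne hX).2 continuous_exp.continuousAt
    exact h1.norm
  obtain ⟨x₀, hx₀, hmin⟩ := (isCompact_closedBall (0 : ℂ) r).exists_isMinOn
    ⟨0, mem_closedBall_self h0⟩ hcont.continuousOn
  have hpos : 0 < ‖dslope exp 0 x₀‖ := by
    rw [norm_pos_iff]
    rcases eq_or_ne x₀ 0 with rfl | hne
    · rw [dslope_same, Complex.deriv_exp, exp_zero]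
      exact one_ne_zero
    · rw [dslope_of_ne _ hne, slope_def_field, exp_zero, sub_zero]
      apply div_ne_zero _ hne
      intro h
      obtain ⟨k, hk⟩ := Complex.exp_eq_one_iff.1 (sub_eq_zero.1 h)
      have h1 : ‖x₀‖ = |(k : ℝ)| * (2 * Real.pi) := by
        rw [hk, norm_mul, norm_mul, norm_mul, Complex.norm_intCast, Complex.norm_I,
          Complex.norm_real, Real.norm_eq_abs, abs_of_pos Real.pi_pos, mul_one]
        norm_num
      have h2 : ‖x₀‖ ≤ r := by simpa using hx₀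
      have hk0 : k ≠ 0 := by
        rintro rfl
        apply hne
        rw [hk]
        simp
      have h3 : (1 : ℝ) ≤ |(k : ℝ)| := by
        have := Int.one_le_abs hk0
        exact_mod_cast this
      have h4 : 2 * Real.pi ≤ |(k : ℝ)| * (2 * Real.pi) :=
        le_mul_of_one_le_left (by positivity) h3
      linarith
  refine ⟨min ‖dslope exp 0 x₀‖ 1, lt_min hpos one_pos, min_le_right _ _, ?_⟩
  intro X hX
  have h1 : ‖dslope exp 0 x₀‖ ≤ ‖dslope exp 0 X‖ := hmin (by simpa using hX)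
  have h2 : exp X - 1 = X * dslope exp 0 X := by
    have := sub_smul_dslope exp 0 X
    rw [sub_zero, exp_zero, smul_eq_mul] at this
    exact this.symm
  rw [h2, norm_mul, mul_comm]
  exact mul_le_mul_of_nonneg_left ((min_le_left _ _).trans h1) (norm_nonneg _)

theorem sum_sqrt (n : ℕ) : ∑ k ∈ Finset.range n, 1 / √((k : ℝ) + 1) ≤ 2 * √n := by
  induction n with
  | zero => simp
  | succ n ih =>
    rw [Finset.sum_range_succ]
    have h1 : 0 ≤ √(n : ℝ) := Real.sqrt_nonneg _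
    have h2 : 0 < √((n : ℝ) + 1) := Real.sqrt_pos.2 (by positivity)
    have h3 : √(n : ℝ) ^ 2 = n := Real.sq_sqrt (Nat.cast_nonneg n)
    have h4 : √((n : ℝ) + 1) ^ 2 = n + 1 := Real.sq_sqrt (by positivity)
    have h5 : 1 / √((n : ℝ) + 1) ≤ 2 * √((n : ℝ) + 1) - 2 * √n := by
      rw [div_le_iff₀ h2]
      nlinarith [sq_nonneg (√((n : ℝ) + 1) - √n)]
    push_cast
    linarith

end Pool.Agent.X220.PT
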