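import Pool.Agent.X220.PT.Stable

/-!
# Slow escape: the orbit stays small for `2 ‖κ‖ n ≤ 2 π - η`
-/

set_option autoImplicit false

open Complex Metric Set Filter Topology

namespace Pool.Agent.X220.PT

theorem stable {η : ℝ} (hη : 0 < η) (hη1 : η < 1) : ∃ A δ : ℝ, 0 < A ∧ 0 < δ ∧ δ ≤ 1 / 100 ∧
    ∀ κ : ℂ, ‖κ‖ < δ → ∀ n : ℕ, 2 * ‖κ‖ * n ≤ 2 * Real.pi - η →
      ‖U κ n‖ ≤ A / √((n : ℝ) + 1) ∧ ‖U κ n‖ ≤ 3 / 5 := by
  have hpi := Real.pi_gt_three
  have hpi4 := Real.pi_le_four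
  obtain ⟨m, hm0, hm1, hm⟩ := exp_lower (r := 2 * Real.pi - η / 2) (by linarith)
  obtain ⟨A, hA⟩ : ∃ A, A = 2 + 8 / m := ⟨_, rfl⟩
  have h8m : 8 ≤ 8 / m := by
    rw [le_div_iff₀ hm0]
    linarith
  have hA2 : 2 ≤ A := by rw [hA]; linarith
  have hA8 : 8 / m ≤ A ^ 2 := by
    rw [hA]
    nlinarith
  have hA0 : 0 < A := by linarith
  obtain ⟨C, hC⟩ : ∃ C, C = Real.exp (2 * Real.pi) := ⟨_, rfl⟩
  have hC0 : 0 < C := by rw [hC]; exact Real.exp_pos _
  obtain ⟨n₀, hn₀⟩ : ∃ n₀ : ℕ, n₀ = ⌈(1280 * A / η) ^ 2 + 14 * C / m + 12 / m + 1⌉₊ := ⟨_, rfl⟩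
  have hn₀' : (1280 * A / η) ^ 2 + 14 * C / m + 12 / m + 1 ≤ n₀ := by
    rw [hn₀]; exact Nat.le_ceil _
  obtain ⟨δ₁, hδ₁, hfirst⟩ := first_steps n₀
  refine ⟨A, min δ₁ (η / 7040), hA0, by positivity, (min_le_right _ _).trans (by linarith), ?_⟩
  intro κ hκ
  have hκ1 := hκ.trans_le (min_le_left _ _)
  have hκ2 : ‖κ‖ < η / 7040 := hκ.trans_le (min_le_right _ _)
  have hκ3 : ‖κ‖ ≤ 1 / 100 := by linarith
  intro n
  induction n using Nat.strong_induction_on with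
  | _ n ih =>
    intro hn
    rcases Nat.lt_or_ge n₀ n with hlt | hle
    swap
    · obtain ⟨h1, h2⟩ := hfirst κ hκ1 n hle
      refine ⟨h1.trans ?_, h2⟩
      exact div_le_div_of_nonneg_right hA2 (Real.sqrt_nonneg _)
    have hnr : (1280 * A / η) ^ 2 + 14 * C / m + 12 / m + 1 ≤ n :=
      hn₀'.trans (by exact_mod_cast hlt.le)
    have ha1 : (0 : ℝ) ≤ (1280 * A / η) ^ 2 := by positivity
    have ha2 : (0 : ℝ) ≤ 14 * C / m := by positivity
    have ha3 : (0 : ℝ) ≤ 12 / m := by positivity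
    have hnpos : (0 : ℝ) < n := by linarith
    have hsn : 0 < √(n : ℝ) := Real.sqrt_pos.2 hnpos
    have hsn1 : 0 < √((n : ℝ) + 1) := Real.sqrt_pos.2 (by positivity)
    rcases eq_or_ne κ 0 with rfl | hκ0
    · obtain ⟨h1, h2⟩ := U0_bd n
      refine ⟨h1.trans ?_, by linarith⟩
      exact div_le_div_of_nonneg_right (by linarith) hsn1.le
    have hκp : 0 < ‖κ‖ := norm_pos_iff.2 hκ0
    -- the previous steps
    have hprev : ∀ k < n, ‖U κ k‖ ≤ A / √((k : ℝ) + 1) ∧ ‖U κ k‖ ≤ 3 / 5 := by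
      intro k hk
      apply ih k hk
      have h1 : (k : ℝ) ≤ n := by exact_mod_cast hk.le
      have h2 : 2 * ‖κ‖ * k ≤ 2 * ‖κ‖ * n := mul_le_mul_of_nonneg_left h1 (by positivity)
      linarith
    have hu0 : U κ n ≠ 0 := U_ne hκ3 fun k hk => (hprev k hk).2
    obtain ⟨S, hS1, hS2⟩ := cocycle hκ3 fun k hk => (hprev k hk).2
    have hsum : ∑ k ∈ Finset.range n, ‖U κ k‖ ≤ A * (2 * √n) := by
      refine (Finset.sum_le_sum fun k hk => (hprev k (Finset.mem_range.1 hk)).1).trans ?_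
      have h1 : ∀ k ∈ Finset.range n, A / √((k : ℝ) + 1) = A * (1 / √((k : ℝ) + 1)) := by
        intro k _
        rw [mul_one_div]
      rw [Finset.sum_congr rfl h1, ← Finset.mul_sum]
      exact mul_le_mul_of_nonneg_left (sum_sqrt n) hA0.le
    have hsq : 1280 * A / η ≤ √(n : ℝ) := by
      apply Real.le_sqrt_of_sq_le
      linarith
    have hsq2 : √(n : ℝ) ^ 2 = n := Real.sq_sqrt hnpos.le
    have hsmall : 80 * A * √(n : ℝ) ≤ η / 16 * n := by
      have h1 : 1280 * A ≤ √(n : ℝ) * η := by rwa [div_le_iff₀ hη] at hsq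
      have h2 := mul_le_mul_of_nonneg_right h1 hsn.le
      nlinarith
    have hS3 : ‖S - 2 * κ * n‖ ≤ ‖κ‖ * n * (η / 8) := by
      refine hS2.trans ?_
      have h1 : 40 * ‖κ‖ * ∑ k ∈ Finset.range n, ‖U κ k‖ ≤ 40 * ‖κ‖ * (A * (2 * √n)) :=
        mul_le_mul_of_nonneg_left hsum (by positivity)
      have h2 : 40 * ‖κ‖ * (A * (2 * √n)) ≤ ‖κ‖ * (η / 16 * n) := by
        have := mul_le_mul_of_nonneg_left hsmall hκp.le
        nlinarith
      have h3 : 440 * ‖κ‖ ^ 2 * n ≤ ‖κ‖ * (η / 16 * n) := by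
        have h4 : 440 * ‖κ‖ ≤ η / 16 := by linarith
        have h5 := mul_le_mul_of_nonneg_right h4 (by positivity : 0 ≤ ‖κ‖ * n)
        nlinarith
      linarith
    have hn2 : ‖(2 : ℂ) * κ * n‖ = 2 * ‖κ‖ * n := by
      rw [norm_mul, norm_mul, Complex.norm_natCast]
      norm_num
    have hkn : 0 < ‖κ‖ * n := by positivity
    have hSup : ‖S‖ ≤ 2 * Real.pi - η / 2 := by
      have h1 := norm_add_le (S - 2 * κ * n) (2 * κ * n)
      rw [sub_add_cancel, hn2] at h1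
      have h2 : ‖κ‖ * n ≤ 4 := by linarith
      have h3 : ‖κ‖ * n * (η / 8) ≤ 4 * (η / 8) := mul_le_mul_of_nonneg_right h2 (by positivity)
      linarith
    have hSlo : ‖κ‖ * n ≤ ‖S‖ := by
      have h1 := norm_add_le (2 * κ * n - S) S
      rw [sub_add_cancel, hn2, norm_sub_rev] at h1
      have h2 : ‖κ‖ * n * (η / 8) ≤ ‖κ‖ * n * 1 := mul_le_mul_of_nonneg_left (by linarith) hkn.le
      linarith
    have hG : m / 2 * (‖κ‖ * n) ≤ ‖G κ n - 1‖ := by
      have h1 : G κ n - 1 = (exp S - 1) + (G κ 0 - 1) * exp S := by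
        rw [hS1]
        ring
      have h2 : ‖exp S - 1‖ ≤ ‖G κ n - 1‖ + ‖(G κ 0 - 1) * exp S‖ := by
        have := norm_sub_le (G κ n - 1) ((G κ 0 - 1) * exp S)
        rwa [show G κ n - 1 - (G κ 0 - 1) * exp S = exp S - 1 by rw [h1]; ring] at this
      have h3 := hm S hSup
      have h4 : m * (‖κ‖ * n) ≤ m * ‖S‖ := mul_le_mul_of_nonneg_left hSlo hm0.le
      have h5 : ‖(G κ 0 - 1) * exp S‖ ≤ 7 * ‖κ‖ * C := by
        rw [norm_mul]
        apply mul_le_mul (G_zero_sub hκ3) _ (norm_nonneg _) (by positivity)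
        rw [Complex.norm_exp, hC, Real.exp_le_exp]
        have := (Complex.re_le_norm S)
        linarith
      have h6 : 7 * ‖κ‖ * C ≤ m / 2 * (‖κ‖ * n) := by
        have h7 : 14 * C / m ≤ n := by linarith
        rw [div_le_iff₀ hm0] at h7
        have h8 := mul_le_mul_of_nonneg_left h7 hκp.le
        nlinarith
      linarith
    rw [G_sub_one hu0, norm_div, norm_pow, norm_mul] at hG
    obtain ⟨x, hx⟩ : ∃ x, x = ‖U κ n‖ := ⟨_, rfl⟩
    have hx0 : 0 < x := by rw [hx]; exact norm_pos_iff.2 hu0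
    have h1u : ‖1 + U κ n‖ ≤ 1 + x := by
      have := norm_add_le (1 : ℂ) (U κ n)
      rw [norm_one] at this
      rw [hx]
      exact this
    rw [← hx] at hG ⊢
    rw [le_div_iff₀ (by positivity)] at hG
    have hG2 : m / 2 * n * x ^ 2 ≤ 1 + x := by
      have h1 : ‖κ‖ * ‖1 + U κ n‖ ≤ ‖κ‖ * (1 + x) := mul_le_mul_of_nonneg_left h1u hκp.le
      have h2 : ‖κ‖ * (m / 2 * n * x ^ 2) ≤ ‖κ‖ * (1 + x) := by nlinarith
      exact le_of_mul_le_mul_left h2 hκp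
    have hmn : 12 ≤ m * n := by
      have h1 : 12 / m ≤ n := by linarith
      rw [div_le_iff₀ hm0] at h1
      linarith
    have hx1 : x < 1 := by
      by_contra hcon
      push Not at hcon
      have h1 : 6 * x ^ 2 ≤ m / 2 * n * x ^ 2 :=
        mul_le_mul_of_nonneg_right (by linarith) (sq_nonneg x)
      nlinarith
    have hx2 : m * n * x ^ 2 ≤ 4 := by nlinarith
    constructor
    · rw [le_div_iff₀ hsn1]
      have h1 : (x * √((n : ℝ) + 1)) ^ 2 ≤ A ^ 2 := by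
        rw [mul_pow, Real.sq_sqrt (by positivity)]
        refine le_trans ?_ hA8
        rw [le_div_iff₀ hm0]
        have h2 : (1 : ℝ) ≤ n := by linarith
        have h3 : x ^ 2 * ((n : ℝ) + 1) * m ≤ x ^ 2 * (2 * n) * m :=
          mul_le_mul_of_nonneg_right (mul_le_mul_of_nonneg_left (by linarith) (sq_nonneg x)) hm0.le
        nlinarith
      exact (abs_le_of_sq_le_sq' h1 hA0.le).2
    · by_contra hcon
      push Not at hcon
      have h1 : (3 / 5 : ℝ) ^ 2 < x ^ 2 := by nlinarith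
      nlinarith

end Pool.Agent.X220.PT
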